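import Pool.Agent.H380.BG.Sti
import Pool.Graph.R_seed8.H382R2.Digamma

/-!
The digamma function in a sector (`S_PSI`).
-/

set_option autoImplicit false

namespace Pool.Agent.H331.BG

open Complex Filter Topology Set
open H370.DG

lemma hasDeriv_log (z : ℂ) (hz : 0 < z.im) (t : ℝ) :
    HasDerivAt (fun t : ℝ => log (z + t)) (1 / (z + t)) t := by
  have h1 : HasDerivAt (fun u : ℂ => log (z + u)) (1 / (z + (t : ℂ))) (t : ℂ) := by
    refine HasDerivAt.clog ((hasDerivAt_id (t : ℂ)).const_add z) ?_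
    right
    rw [add_im, ofReal_im, add_zero]
    exact hz.ne'
  exact h1.comp_ofReal

lemma im_le_add (z : ℂ) (hz : 0 < z.im) (t : ℝ) : z.im ≤ ‖z + (t : ℂ)‖ := by
  have h := abs_im_le_norm (z + (t : ℂ))
  rw [add_im, ofReal_im, add_zero, abs_of_pos hz] at h
  exact h

lemma add_ne (z : ℂ) (hz : 0 < z.im) (t : ℝ) : z + (t : ℂ) ≠ 0 := by
  intro h
  have h1 := im_le_add z hz t
  rw [h, norm_zero] at h1
  linarith

lemma log_shift (w : ℂ) (hre : 0 < w.re) (him : 1 ≤ w.im) : ‖log (w + 2) - log w‖ ≤ 2 / ‖w‖ := by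
  have h0 : 0 < w.im := by linarith
  have hw : 0 < ‖w‖ := by
    have := im_le_add w h0 0
    rw [ofReal_zero, add_zero] at this
    linarith
  have h1 := norm_image_sub_le_of_norm_deriv_le_segment' (f := fun t : ℝ => log (w + t))
    (f' := fun t : ℝ => 1 / (w + t)) (C := 1 / ‖w‖) (a := 0) (b := 2)
    (fun t _ => (hasDeriv_log w h0 t).hasDerivWithinAt) (fun t ht => by
      rw [norm_div, norm_one]
      apply one_div_le_one_div_of_le hw
      rw [Complex.norm_def, Complex.norm_def]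
      apply Real.sqrt_le_sqrt
      rw [normSq_apply, normSq_apply, add_re, add_im, ofReal_re, ofReal_im, add_zero]
      have := ht.1
      nlinarith) 2 (by norm_num)
  simp only [ofReal_zero, add_zero, ofReal_ofNat] at h1
  refine h1.trans (le_of_eq ?_)
  ring

lemma step (z : ℂ) (him : 1 ≤ z.im) : ‖log (z + 1) - log z - 1 / z‖ ≤ 1 / z.im ^ 2 := by
  have h0 : 0 < z.im := by linarith
  have hz : z ≠ 0 := by
    have := add_ne z h0 0
    rwa [ofReal_zero, add_zero] at this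
  have hz1 : z.im ≤ ‖z‖ := by
    have := im_le_add z h0 0
    rwa [ofReal_zero, add_zero] at this
  have h1 := norm_image_sub_le_of_norm_deriv_le_segment'
    (f := fun t : ℝ => log (z + t) - (t : ℂ) * (1 / z))
    (f' := fun t : ℝ => 1 / (z + t) - 1 * (1 / z)) (C := 1 / z.im ^ 2) (a := 0) (b := 1)
    (fun t _ => ((hasDeriv_log z h0 t).sub
      ((Complex.ofRealCLM.hasDerivAt (x := t)).mul_const (1 / z))).hasDerivWithinAt)
    (fun t ht => by
      have e : 1 / (z + (t : ℂ)) - 1 * (1 / z) = -(t : ℂ) / (z * (z + t)) := by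
        have := add_ne z h0 t
        field_simp
        ring
      rw [e, norm_div, norm_neg, norm_mul, Complex.norm_real, Real.norm_of_nonneg ht.1]
      have h2 := im_le_add z h0 t
      apply div_le_div₀ zero_le_one ht.2.le (by positivity)
      rw [sq]
      exact mul_le_mul hz1 h2 h0.le (norm_nonneg _)) 1 (by norm_num)
  simp only [ofReal_zero, add_zero, ofReal_one, zero_mul, sub_zero, one_mul] at h1
  have e : log (z + 1) - 1 / z - log z = log (z + 1) - log z - 1 / z := by ring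
  rw [e] at h1
  linarith

lemma add_norm (w : ℂ) (hre : 0 < w.re) (a : ℝ) (ha : 0 ≤ a) : (‖w‖ + a) ^ 2 / 2 ≤ ‖w + (a : ℂ)‖ ^ 2 := by
  have h1 : ‖w + (a : ℂ)‖ ^ 2 = ‖w‖ ^ 2 + 2 * a * w.re + a ^ 2 := by
    rw [← normSq_eq_norm_sq, ← normSq_eq_norm_sq, normSq_apply, normSq_apply, add_re, add_im,
      ofReal_re, ofReal_im, add_zero]
    ring
  rw [h1]
  have h2 : 0 ≤ 2 * a * w.re := by positivity
  nlinarith [sq_nonneg (‖w‖ - a)]

lemma er_le (w : ℂ) (hre : 0 < w.re) (n : ℕ) :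
    ‖er n w‖ ≤ 2 * (1 / (‖w‖ + n + 1) - 1 / (‖w‖ + (n + 1 : ℕ) + 1)) := by
  have hn : (0 : ℝ) ≤ n := Nat.cast_nonneg n
  have hw : 0 ≤ ‖w‖ := norm_nonneg w
  have hre2 : (n : ℝ) + 2 ≤ (w + ((n : ℂ) + 2)).re := by
    simp only [add_re, natCast_re, re_ofNat]
    linarith
  have h1 := log_step (z := w + ((n : ℂ) + 2)) (by linarith)
  have h2 : w + ((n : ℂ) + 2) + 1 = w + (n + 3) := by ring
  rw [h2] at h1
  unfold er
  refine h1.trans ?_
  have h3 := add_norm w hre ((n : ℝ) + 2) (by positivity)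
  have h4 : (((n : ℝ) + 2 : ℝ) : ℂ) = (n : ℂ) + 2 := by push_cast; ring
  rw [h4] at h3
  have h5 : (1 : ℝ) / ‖w + ((n : ℂ) + 2)‖ ^ 2 ≤ 1 / ((‖w‖ + ((n : ℝ) + 2)) ^ 2 / 2) :=
    one_div_le_one_div_of_le (by positivity) h3
  refine h5.trans ?_
  have h6 : 2 * (1 / (‖w‖ + n + 1) - 1 / (‖w‖ + (n + 1 : ℕ) + 1)) =
      2 / ((‖w‖ + n + 1) * (‖w‖ + n + 2)) := by
    push_cast
    have a1 : ‖w‖ + (n : ℝ) + 1 ≠ 0 := by positivity
    have a2 : ‖w‖ + (n : ℝ) + 2 ≠ 0 := by positivity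
    have a3 : ‖w‖ + ((n : ℝ) + 1) + 1 = ‖w‖ + n + 2 := by ring
    rw [a3]
    field_simp
    ring
  rw [h6]
  have h7 : 1 / ((‖w‖ + ((n : ℝ) + 2)) ^ 2 / 2) = 2 / (‖w‖ + ((n : ℝ) + 2)) ^ 2 := by
    rw [one_div_div]
  rw [h7]
  apply div_le_div_of_nonneg_left (by norm_num) (by positivity)
  nlinarith

lemma sum_er_le (w : ℂ) (hre : 0 < w.re) (him : 1 ≤ w.im) : ‖∑' n, er n w‖ ≤ 2 / ‖w‖ := by
  have hw : 0 < ‖w‖ := by
    have := im_le_add w (by linarith) 0
    rw [ofReal_zero, add_zero] at this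
    linarith
  have h1 := (summable_er hre).hasSum.tendsto_sum_nat
  refine le_of_tendsto h1.norm (Eventually.of_forall fun m => ?_)
  refine (norm_sum_le _ _).trans ((Finset.sum_le_sum fun n _ => er_le w hre n).trans ?_)
  rw [← Finset.mul_sum, Finset.sum_range_sub' (fun n : ℕ => 1 / (‖w‖ + (n : ℝ) + 1))]
  have h2 : (0 : ℝ) ≤ 1 / (‖w‖ + (m : ℝ) + 1) := by positivity
  have h3 : (1 : ℝ) / (‖w‖ + ((0 : ℕ) : ℝ) + 1) ≤ 1 / ‖w‖ := by
    apply one_div_le_one_div_of_le hw
    rw [Nat.cast_zero]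
    linarith
  have h4 : (2 : ℝ) / ‖w‖ = 2 * (1 / ‖w‖) := by ring
  rw [h4]
  linarith

lemma case_pos (w : ℂ) (hre : 0 < w.re) (him : 1 ≤ w.im) :
    ‖logDeriv Gamma w - log w‖ ≤ 6 / ‖w‖ := by
  have hw : 0 < ‖w‖ := by
    have := im_le_add w (by linarith) 0
    rw [ofReal_zero, add_zero] at this
    linarith
  have e : logDeriv Gamma w - log w =
      (log (w + 2) - log w) - 1 / w - 1 / (w + 1) + ∑' n, er n w := by
    rw [logDeriv_Gamma' hre]
    ring
  rw [e]
  have b0 := log_shift w hre him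
  have b1 : ‖1 / w‖ = 1 / ‖w‖ := by rw [norm_div, norm_one]
  have b2 : ‖1 / (w + 1)‖ ≤ 1 / ‖w‖ := by
    rw [norm_div, norm_one]
    apply one_div_le_one_div_of_le hw
    rw [Complex.norm_def, Complex.norm_def]
    apply Real.sqrt_le_sqrt
    rw [normSq_apply, normSq_apply, add_re, add_im, one_re, one_im, add_zero]
    nlinarith
  have b3 := sum_er_le w hre him
  have t1 := norm_add_le ((log (w + 2) - log w) - 1 / w - 1 / (w + 1)) (∑' n, er n w)
  have t2 := norm_sub_le ((log (w + 2) - log w) - 1 / w) (1 / (w + 1))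
  have t3 := norm_sub_le (log (w + 2) - log w) (1 / w)
  have e2 : (6 : ℝ) / ‖w‖ = 2 / ‖w‖ + 1 / ‖w‖ + 1 / ‖w‖ + 2 / ‖w‖ := by ring
  rw [e2]
  linarith

lemma tele (w : ℂ) (him : 1 ≤ w.im) (k : ℕ) :
    ‖log (w + k) - log w - ∑ j ∈ Finset.range k, (w + j)⁻¹‖ ≤ k / w.im ^ 2 := by
  induction k with
  | zero => simp
  | succ k ih =>
    have h1 := step (w + k) (by rw [add_im, natCast_im, add_zero]; exact him)
    rw [add_im, natCast_im, add_zero] at h1
    rw [Finset.sum_range_succ]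
    have e : log (w + ((k + 1 : ℕ) : ℂ)) - log w -
        (∑ j ∈ Finset.range k, (w + (j : ℂ))⁻¹ + (w + (k : ℂ))⁻¹) =
        (log (w + k) - log w - ∑ j ∈ Finset.range k, (w + (j : ℂ))⁻¹) +
        (log (w + k + 1) - log (w + k) - 1 / (w + k)) := by
      push_cast
      rw [← add_assoc, one_div]
      ring
    rw [e]
    refine (norm_add_le _ _).trans ((add_le_add ih h1).trans (le_of_eq ?_))
    push_cast
    ring

/-- **PSI.** -/
theorem t_PSI : Pool.Agent.H380.BG.S_PSI := by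
  refine ⟨16, by norm_num, fun w him hre => ?_⟩
  have hi : 0 < w.im := by linarith
  have hw : 0 < ‖w‖ := by
    have := im_le_add w hi 0
    rw [ofReal_zero, add_zero] at this
    linarith
  rcases lt_or_ge 0 w.re with h | h
  · refine (case_pos w h him).trans ?_
    exact div_le_div_of_nonneg_right (by norm_num) hw.le
  · obtain ⟨k, hk⟩ : ∃ k : ℕ, k = ⌊-w.re⌋₊ + 1 := ⟨_, rfl⟩
    have hk1 : (k : ℝ) ≤ -w.re + 1 := by
      rw [hk]
      push_cast
      have := Nat.floor_le (show 0 ≤ -w.re by linarith)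
      linarith
    have hk2 : -w.re < (k : ℝ) := by
      rw [hk]
      push_cast
      exact Nat.lt_floor_add_one _
    have him' : (w + (k : ℂ)).im = w.im := by rw [add_im, natCast_im, add_zero]
    have hre' : (w + (k : ℂ)).re = w.re + k := by rw [add_re, natCast_re]
    have h3 := case_pos (w + k) (by rw [hre']; linarith) (by rw [him']; exact him)
    have h4 := SG.Dig.dig_rec w (by rw [abs_of_pos hi]; exact him) k
    have h5 := tele w him k
    have h6 : w.im ≤ ‖w + (k : ℂ)‖ := by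
      have := im_le_add w hi (k : ℝ)
      rwa [ofReal_natCast] at this
    have h7 : 6 / ‖w + (k : ℂ)‖ ≤ 6 / w.im := div_le_div_of_nonneg_left (by norm_num) hi h6
    have h8 : (k : ℝ) / w.im ^ 2 ≤ 2 / w.im := by
      rw [div_le_div_iff₀ (by positivity) hi]
      nlinarith
    have h9 : ‖w‖ ≤ 2 * w.im := by
      have := norm_le_abs_re_add_abs_im w
      rw [abs_of_nonpos h, abs_of_pos hi] at this
      linarith
    have h10 : 8 / w.im ≤ 16 / ‖w‖ := by
      rw [div_le_div_iff₀ hi hw]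
      linarith
    have e : logDeriv Gamma w - log w = (logDeriv Gamma (w + k) - log (w + k)) +
        (log (w + k) - log w - ∑ j ∈ Finset.range k, (w + (j : ℂ))⁻¹) := by
      rw [h4]
      ring
    rw [e]
    refine (norm_add_le _ _).trans ?_
    have e2 : (8 : ℝ) / w.im = 6 / w.im + 2 / w.im := by ring
    linarith

end Pool.Agent.H331.BG
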